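import Pool.Agent.H92.EHD.TK
import Pool.Agent.H43.EQ.KN2

/-!
# Row EKN of the board `ehd_modules`: local constancy
-/

set_option autoImplicit false

namespace Pool.Agent.H43.EHD

open scoped BigOperators ComplexConjugate ContDiff ComplexOrder
open MeasureTheory Pool.Agent.H92.EQ Pool.Agent.H43.EQ Pool.Agent.H92.EHD

noncomputable section

/-- iterates of endomorphisms which fix the hyperplane -/
theorem isE_iter (h12 : T_D12) {k d : ℕ} {F : Fin (k + 1) → MvPolynomial (Fin (k + 1)) ℂ}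
    (hd : 1 ≤ d) (hF : IsE d F) (n : ℕ) : IsE (d ^ n) (iter F n) := by
  refine ⟨(h12 (k + 1) d F hd hF.isH 0 n).1, ?_⟩
  induction n with
  | zero =>
    show MvPolynomial.X 0 = MvPolynomial.X 0 ^ (d ^ 0)
    rw [pow_zero, pow_one]
  | succ n ih =>
    show MvPolynomial.bind₁ (iter F n) (F 0) = _
    rw [hF.zero, map_pow, MvPolynomial.bind₁_X_right, ih, ← pow_mul, pow_succ]

/-- The cutoff is bounded by the sum of the indicators. -/
theorem EKN_pt {k d : ℕ} {F : Fin (k + 1) → MvPolynomial (Fin (k + 1)) ℂ} {c : ℝ} (hc : 0 < c)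
    (hL : ∀ (n : ℕ) (x : Fin (k + 1) → ℂ), x ≠ 0 →
      c ^ n * ∏ m ∈ Finset.range n, nv (lowP F) (k * (d - 1)) (ev (iter F m) x) ≤
        relL (iter F n) x)
    {n' : ℕ} {δ : ℝ} (hδ : 0 < δ) {κ : (Fin (k + 1) → ℂ) → ℝ}
    (hκ01 : ∀ x, x ≠ 0 → 0 ≤ κ x ∧ κ x ≤ 1)
    (hκ : ∀ x, x ≠ 0 → 2 * ((1 / 2) * c ^ n' * Real.exp (-(2 * δ * (d : ℝ) ^ n'))) ≤
      relL (iter F n') x → κ x = 1) {z : Fin (k + 1) → ℂ} (hz : z ≠ 0) :
    1 - κ z ≤ ∑ l ∈ Finset.Icc 1 n',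
      Set.indicator (CrL F d (Real.exp (-(δ / (l : ℝ) ^ 2 * (d : ℝ) ^ n')))) (fun _ => (1 : ℝ))
        (ev (iter F (n' - l)) z) := by
  by_cases h : ∃ i ∈ Finset.Icc 1 n',
      ev (iter F (n' - i)) z ∈ CrL F d (Real.exp (-(δ / (i : ℝ) ^ 2 * (d : ℝ) ^ n')))
  · obtain ⟨i, hi, hz'⟩ := h
    have h1 : (1 : ℝ) = Set.indicator (CrL F d (Real.exp (-(δ / (i : ℝ) ^ 2 * (d : ℝ) ^ n'))))
        (fun _ => (1 : ℝ)) (ev (iter F (n' - i)) z) := by
      rw [Set.indicator_of_mem hz']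
    have h2 := Finset.single_le_sum (f := fun i : ℕ =>
      Set.indicator (CrL F d (Real.exp (-(δ / (i : ℝ) ^ 2 * (d : ℝ) ^ n')))) (fun _ => (1 : ℝ))
        (ev (iter F (n' - i)) z)) (fun i _ => Set.indicator_nonneg (fun _ _ => zero_le_one) _) hi
    have h3 := (hκ01 z hz).1
    have h4 := h1.le.trans h2
    linarith
  · push Not at h
    have hall : ∀ m ∈ Finset.range n',
        Real.exp (-(δ * (d : ℝ) ^ n' * (((n' - m : ℕ) : ℝ) ^ 2)⁻¹)) ≤
          nv (lowP F) (k * (d - 1)) (ev (iter F m) z) := by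
      intro m hm
      rw [Finset.mem_range] at hm
      have h1 := h (n' - m) (by rw [Finset.mem_Icc]; constructor <;> omega)
      have h2 : n' - (n' - m) = m := by omega
      rw [h2] at h1
      have h3 : ¬ nv (lowP F) (k * (d - 1)) (ev (iter F m) z) <
          Real.exp (-(δ / (((n' - m : ℕ) : ℝ)) ^ 2 * (d : ℝ) ^ n')) := h1
      rw [not_lt] at h3
      refine le_trans (le_of_eq ?_) h3
      congr 1
      rw [div_eq_mul_inv]
      ring
    have hprod : Real.exp (-(2 * δ * (d : ℝ) ^ n')) ≤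
        ∏ m ∈ Finset.range n', nv (lowP F) (k * (d - 1)) (ev (iter F m) z) := by
      calc Real.exp (-(2 * δ * (d : ℝ) ^ n'))
          ≤ Real.exp (∑ m ∈ Finset.range n',
              -(δ * (d : ℝ) ^ n' * (((n' - m : ℕ) : ℝ) ^ 2)⁻¹)) := by
            refine Real.exp_le_exp.2 ?_
            rw [Finset.sum_neg_distrib, ← Finset.mul_sum]
            have e1 := KN_sum_inv n' 0 (Nat.zero_le _)
            rw [Nat.sub_zero] at e1
            have e2 : 0 ≤ δ * (d : ℝ) ^ n' := by positivity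
            nlinarith
        _ = ∏ m ∈ Finset.range n',
              Real.exp (-(δ * (d : ℝ) ^ n' * (((n' - m : ℕ) : ℝ) ^ 2)⁻¹)) := Real.exp_sum _ _
        _ ≤ _ := Finset.prod_le_prod (fun m _ => (Real.exp_pos _).le) hall
    have hrel := hL n' z hz
    have hge : 2 * ((1 / 2) * c ^ n' * Real.exp (-(2 * δ * (d : ℝ) ^ n'))) ≤
        relL (iter F n') z := by
      refine le_trans ?_ hrel
      calc 2 * ((1 / 2) * c ^ n' * Real.exp (-(2 * δ * (d : ℝ) ^ n')))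
          = c ^ n' * Real.exp (-(2 * δ * (d : ℝ) ^ n')) := by ring
        _ ≤ _ := by gcongr
    rw [hκ z hz hge, sub_self]
    exact Finset.sum_nonneg fun i _ => Set.indicator_nonneg (fun _ _ => zero_le_one) _

theorem EKN_meas {k d : ℕ} (F : Fin (k + 1) → MvPolynomial (Fin (k + 1)) ℂ) (r : ℝ) (m : ℕ) :
    Measurable (fun z => Set.indicator (CrL F d r) (fun _ => (1 : ℝ)) (ev (iter F m) z)) := by
  have h1 : MeasurableSet (CrL F d r) := by
    unfold CrL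
    refine measurableSet_lt ?_ measurable_const
    unfold nv
    exact ((MvPolynomial.continuous_eval _).norm.measurable).div
      ((KJ_nrm_cont.pow _).measurable)
  exact (measurable_const.indicator h1).comp (KJ_ev_cont _).measurable

/-- The bad part. -/
theorem EKN_bad (hP1 : T_P1) (hP3 : T_P3) (hL1 : T_L1) (hL3 : T_L3) {k d p q : ℕ}
    {F : Fin (k + 1) → MvPolynomial (Fin (k + 1)) ℂ}
    (hN : p + q + 1 = k + 1) {n i1 n' : ℕ} (hn' : i1 + n' = n) {δ : ℝ}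
    {κ : (Fin (k + 1) → ℂ) → ℝ} (hκ : Hom0 κ)
    (hpt : ∀ z : Fin (k + 1) → ℂ, z ≠ 0 → 1 - κ z ≤ ∑ l ∈ Finset.Icc 1 n',
      Set.indicator (CrL F d (Real.exp (-(δ / (l : ℝ) ^ 2 * (d : ℝ) ^ n')))) (fun _ => (1 : ℝ))
        (ev (iter F (n' - l)) z)) (S : Form (Fin (k + 1)) p) (hS : ProjForm (Sn F d n S)) :
    pair (fun z => 1 - κ z) (Sn F d n S) (fun _ : Fin q => ell) ≤
      ∑ l ∈ Finset.Icc 1 n',
        betaL F d n (i1 + l) q (Real.exp (-(δ / (l : ℝ) ^ 2 * (d : ℝ) ^ n'))) S := by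
  have hell : ∀ j : Fin q, Pot ((fun _ : Fin q => (ell : (Fin (k + 1) → ℂ) → ℝ)) j) :=
    fun _ => (hL3 (k + 1)).1
  have hLH : ∀ j : Fin q, LH ((fun _ : Fin q => (1 : ℝ)) j)
      ((fun _ : Fin q => (ell : (Fin (k + 1) → ℂ) → ℝ)) j) :=
    fun _ => ((hL1 (k + 1) 0 0 0 0 ell ell).2.2.1) (hL3 (k + 1)).1
  set T := Sn F d n S with hT
  set f : ℕ → (Fin (k + 1) → ℂ) → ℝ := fun l z =>
    Set.indicator (CrL F d (Real.exp (-(δ / (l : ℝ) ^ 2 * (d : ℝ) ^ n')))) (fun _ => (1 : ℝ))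
        (ev (iter F (n' - l)) z) with hf
  have hi1 := (hP1 (k + 1) p q T (fun _ => ell) (fun _ => 1) hN hS hLH).1
  have hi2 := (hP1 (k + 1) p q T (fun _ => ell) (fun _ => 1) hN hS hLH).2
  have hfi : ∀ i, IntegrableOn (fun z => f i z * Q T (fun _ : Fin q => ell) z)
      {z : Fin (k + 1) → ℂ | 0 ≤ ell z ∧ ell z < 1} := by
    intro i
    refine hi1 (f i) 1 (EKN_meas F _ _) ?_
    intro z _
    rw [hf]
    by_cases hm : ev (iter F (n' - i)) z ∈
      CrL F d (Real.exp (-(δ / (i : ℝ) ^ 2 * (d : ℝ) ^ n')))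
    · simp only [Set.indicator_of_mem hm, abs_one, le_refl]
    · simp only [Set.indicator_of_notMem hm, abs_zero, zero_le_one]
  have hκi : IntegrableOn (fun z => (1 - κ z) * Q T (fun _ : Fin q => ell) z)
      {z : Fin (k + 1) → ℂ | 0 ≤ ell z ∧ ell z < 1} :=
    hi2 (fun z => 1 - κ z) (continuousOn_const.sub hκ.smooth.continuousOn)
  have hpos := (hP3 (k + 1) p q T (fun _ => ell) hN hS hell).2.1
    (fun z => ∑ i ∈ Finset.Icc 1 n', f i z - (1 - κ z)) (fun z hz => by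
      have := hpt z hz
      show 0 ≤ ∑ i ∈ Finset.Icc 1 n', f i z - (1 - κ z)
      linarith)
  have hsplit : pair (fun z => ∑ i ∈ Finset.Icc 1 n', f i z - (1 - κ z)) T
      (fun _ : Fin q => ell) = ∑ i ∈ Finset.Icc 1 n', pair (f i) T (fun _ : Fin q => ell) -
        pair (fun z => 1 - κ z) T (fun _ : Fin q => ell) := by
    unfold pair Iint
    rw [← integral_finsetSum _ (fun i _ => hfi i), ← integral_sub (integrable_finsetSum _
      (fun i _ => hfi i)) hκi]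
    congr 1
    funext z
    show (∑ i ∈ Finset.Icc 1 n', f i z - (1 - κ z)) * Q T (fun _ : Fin q => ell) z = _
    rw [sub_mul, Finset.sum_mul]
  rw [hsplit] at hpos
  have hbeta : ∑ i ∈ Finset.Icc 1 n', pair (f i) T (fun _ : Fin q => ell) =
      ∑ l ∈ Finset.Icc 1 n',
        betaL F d n (i1 + l) q (Real.exp (-(δ / (l : ℝ) ^ 2 * (d : ℝ) ^ n'))) S := by
    refine Finset.sum_congr rfl fun l _ => ?_
    have e1 : n - (i1 + l) = n' - l := by omega
    unfold betaL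
    rw [e1]
  rw [hbeta] at hpos
  linarith

/-- Row EKN. -/
theorem pf_EKN (hKS : T_EKS) (hKJ : T_EKJ) (hKL : T_EKL) (hKM : T_KM) (hP4 : T_P4)
    (h12 : T_D12) (h6 : T_L6) (hP5 : T_P5) (hD7 : T_D7) (hP1 : T_P1) (hP3 : T_P3) (hL1 : T_L1)
    (hL2 : T_L2) (hL3 : T_L3) (hW6 : T_W6) (hW1 : T_W1) : T_EKN := by
  intro k d p F KK hk hd hp hF hSt hConv hPM hLL q hN' φ u hφ hφ0 hu η δ hη hδ
  have hN : p + q + 1 = k + 1 := by omega
  have hc0 := ((hD7 (k + 1) p).2 q hN).1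
  set c0 := mass q (om (k + 1) p) with hc0def
  obtain ⟨B, hB, hbφ, hbdφ⟩ := KJ_Hom0_bd h6 hL1 hL2 hW6 hφ
  obtain ⟨C, hC, hP4'⟩ := hP4 (k + 1) q u hu
  obtain ⟨cu, mu, hcu, hLu⟩ := hLL q u hu
  obtain ⟨ce, me, hce, hLe⟩ := hLL q (fun _ => ell) (fun _ => (hL3 (k + 1)).1)
  obtain ⟨c, hc, hc1, hL⟩ := hKL k d F hk hd hF
  obtain ⟨K, hK, hKJ'⟩ := hKJ k d F hk hd hF
  obtain ⟨m, hm⟩ : ∃ m : ℕ, m = mu + me + 1 := ⟨_, rfl⟩
  have hmpos : (0 : ℝ) < m := by exact_mod_cast (by omega : 0 < m)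
  obtain ⟨δ', hδ'⟩ : ∃ δ' : ℝ, δ' = δ / (12 * m) := ⟨_, rfl⟩
  have hδ'pos : 0 < δ' := by rw [hδ']; positivity
  have hδm : 6 * m * δ' = δ / 2 := by rw [hδ']; field_simp; norm_num
  obtain ⟨a, ha, hKS'⟩ := hKS k d p q F KK hk hd hN' hF hSt hConv hPM
    (η / (2 * B * C * c0)) δ' (by positivity) hδ'pos
  refine ⟨a, ha, fun Ks hKs => ?_⟩
  obtain ⟨i1, n1, hn1, hKS''⟩ := hKS' Ks hKs
  obtain ⟨n2, hn2⟩ := KN_asym d hd ((K / c ^ 3) ^ m) (δ / 2)
    (η / (2 * (1 + B * C)) / ((cu + ce) * c0) / (16 * B * K) ^ m) (by positivity) (by positivity)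
    (by positivity)
  obtain ⟨n3, hn3⟩ := KN_asym d hd 1 δ (1 / (2 * (k + 1))) one_pos hδ (by positivity)
  refine ⟨i1, max n1 (i1 + max n2 n3), hn1.trans (le_max_left _ _),
    fun n hn S hCls A hA0 hA => ?_⟩
  have hS := hCls.pf
  have hSm := hCls.ms
  have hnn1 : n1 ≤ n := (le_max_left _ _).trans hn
  have hin : i1 ≤ n := hn1.trans hnn1
  obtain ⟨n', hn'⟩ : ∃ n' : ℕ, n' = n - i1 := ⟨_, rfl⟩
  have hnadd : i1 + n' = n := by omega
  have hnn23 : i1 + max n2 n3 ≤ n := (le_max_right _ _).trans hn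
  have hnn2 : n2 ≤ n' := by
    have := le_max_left n2 n3
    omega
  have hnn3 : n3 ≤ n' := by
    have := le_max_right n2 n3
    omega
  rw [← hn'] at hA ⊢
  obtain ⟨hH, _, _, hSnadd, _⟩ := h12 (k + 1) d F (by omega) hF.isH i1 n'
  have hE := isE_iter h12 (by omega) hF n'
  have hPn := (h12 (k + 1) d F (by omega) hF.isH 0 n).2.2.2.2
  have hPi := (h12 (k + 1) d F (by omega) hF.isH 0 i1).2.2.2.2
  have hS1 : ProjForm (Sn F d i1 S) := hPi p S hS
  have hT : ProjForm (Sn F d n S) := hPn p S hS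
  have hD1 : 1 ≤ d ^ n' := Nat.one_le_pow _ _ (by omega)
  have hdR : (0 : ℝ) < d := by exact_mod_cast (by omega : 0 < d)
  set Φ := iter F n' with hΦ
  set S1 := Sn F d i1 S with hS1def
  -- the scale factor
  obtain ⟨Λ, hΛ⟩ : ∃ Λ : ℝ, Λ = (d : ℝ) ^ (p * n') := ⟨_, rfl⟩
  have hΛpos : 0 < Λ := by rw [hΛ]; positivity
  have hpull : ∀ z I J, pull Φ S1 z I J = ((Λ : ℝ) : ℂ) * Sn F d n S z I J := by
    intro z I J
    have e1 := hSnadd p S z
    rw [hnadd] at e1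
    rw [e1]
    show pull Φ S1 z I J = (Λ : ℂ) * (((d : ℂ) ^ (p * n'))⁻¹ * pull (iter F n') S1 z I J)
    have e2 : ((Λ : ℝ) : ℂ) = (d : ℂ) ^ (p * n') := by rw [hΛ]; push_cast; rfl
    have e3 : (d : ℂ) ^ (p * n') ≠ 0 := by
      have : (d : ℂ) ≠ 0 := by exact_mod_cast (by omega : d ≠ 0)
      exact pow_ne_zero _ this
    rw [e2, ← mul_assoc, mul_inv_cancel₀ e3, one_mul]
  have hpp : ∀ (f : (Fin (k + 1) → ℂ) → ℝ) (v : Fin q → (Fin (k + 1) → ℂ) → ℝ),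
      pair f (pull Φ S1) v = Λ * pair f (Sn F d n S) v := fun f v =>
    KN_pair f _ _ v Λ hpull
  have hmass1 : mass q S1 = c0 := by
    rw [hS1def, (hP5 (k + 1) p q d S hN hS).2.1 F i1 (by omega) hF.isH, hSm]
  have hmassp : mass q (pull Φ S1) = Λ * c0 := by
    rw [(hP5 (k + 1) p q (d ^ n') S1 hN hS1).1 Φ hD1 hH, hmass1, hΛ]
    push_cast
    rw [← pow_mul, mul_comm n' p]
  -- the parameters
  obtain ⟨ρ, hρ⟩ : ∃ ρ : ℝ, ρ = (1 / 2) * c ^ n' * Real.exp (-(2 * δ' * (d : ℝ) ^ n')) := ⟨_, rfl⟩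
  have hρpos : 0 < ρ := by rw [hρ]; positivity
  have hρ1 : ρ ≤ 1 := by
    rw [hρ]
    have e1 : c ^ n' ≤ 1 := pow_le_one₀ hc.le hc1
    have e2 : Real.exp (-(2 * δ' * (d : ℝ) ^ n')) ≤ 1 := by
      rw [Real.exp_le_one_iff]
      have : 0 < δ' * (d : ℝ) ^ n' := by positivity
      linarith
    calc (1 / 2) * c ^ n' * Real.exp (-(2 * δ' * (d : ℝ) ^ n')) ≤ (1 / 2) * 1 * 1 := by gcongr
      _ ≤ 1 := by norm_num
  obtain ⟨κ, hκ, hκ01, hκone, hκwd, hjac, hsec, hdet⟩ := hKJ' n' ρ hρpos hρ1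
  obtain ⟨Y, hY⟩ : ∃ Y : ℝ, Y = K ^ (n' + 1) / ρ ^ 2 := ⟨_, rfl⟩
  have hρ2 : 0 < ρ ^ 2 := by positivity
  have hρ21 : ρ ^ 2 ≤ 1 := pow_le_one₀ hρpos.le hρ1
  have hKn1 : 1 ≤ K ^ (n' + 1) := one_le_pow₀ hK
  have hY0 : K ^ (n' + 1) ≤ Y := by
    rw [hY, le_div_iff₀ hρ2]
    nlinarith
  have hY1 : 1 ≤ Y := hKn1.trans hY0
  have hY2 : K ^ (n' + 1) / ρ ^ 2 ≤ Y := by rw [hY]
  have hBY : Y ≤ B * Y := by nlinarith
  have hM1 : 1 ≤ 2 * B * Y := by nlinarith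
  have hMY : Y ≤ 2 * B * Y := by nlinarith
  have hMB : B + B * Y ≤ 2 * B * Y := by nlinarith
  obtain ⟨τ, hτ⟩ : ∃ τ : ℝ, τ = Real.exp (-(δ * (d : ℝ) ^ n')) := ⟨_, rfl⟩
  rw [← hτ] at hA
  have hτ0 : 0 ≤ τ := by rw [hτ]; positivity
  have hτ1 : τ ≤ 1 / (2 * (k + 1)) := by
    have := hn3 n' hnn3
    rw [one_pow, one_mul] at this
    rw [hτ]
    exact this
  have hne : ∀ x : Fin (k + 1) → ℂ, nrm x = 1 → x ≠ 0 := by
    intro x hx h
    rw [h] at hx
    have : nrm (0 : Fin (k + 1) → ℂ) = 0 := by simp [nrm, nsq]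
    rw [this] at hx
    norm_num at hx
  have hjac' : ∀ x, nrm x = 1 → ∀ i a, ‖jac Φ x i a‖ ≤ 2 * B * Y * nrm (ev Φ x) := by
    intro x hx i a
    refine (hjac x hx i a).trans (mul_le_mul_of_nonneg_right ?_ (KJ_nrm_nonneg _))
    linarith
  have hsec' : ∀ x, nrm x = 1 → ∀ i a b,
      ‖MvPolynomial.eval x (MvPolynomial.pderiv b (MvPolynomial.pderiv a (Φ i)))‖ ≤
        2 * B * Y * nrm (ev Φ x) := by
    intro x hx i a b
    refine (hsec x hx i a b).trans (mul_le_mul_of_nonneg_right ?_ (KJ_nrm_nonneg _))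
    linarith
  have hκφ : Hom0 (fun z => κ z * φ z) := by
    refine ⟨hκ.smooth.mul hφ.smooth, ?_⟩
    intro l z hl hz
    show κ (l • z) * φ (l • z) = κ z * φ z
    rw [hκ.hom l z hl hz, hφ.hom l z hl hz]
  -- the two local estimates
  have hL1' := hLu (d ^ n') Φ hD1 hE (fun z => κ z * φ z) (2 * B * Y) ρ hκφ hM1 hρpos hρ1
    (by
      intro x hx
      show |κ x * φ x| ≤ _
      rw [abs_mul, abs_of_nonneg (hκ01 x (hne x hx)).1]
      calc κ x * |φ x| ≤ 1 * B := by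
            have := (hκ01 x (hne x hx)).2
            have := hbφ x (hne x hx)
            gcongr
        _ ≤ 2 * B * Y := by nlinarith)
    (by
      intro x hx a
      have hx0 := hne x hx
      have hfun : (fun w => ((κ w * φ w : ℝ) : ℂ)) = fun w => cx κ w * cx φ w := by
        funext w
        show ((κ w * φ w : ℝ) : ℂ) = (κ w : ℂ) * (φ w : ℂ)
        push_cast
        rfl
      have hd1 : DifferentiableAt ℝ (cx κ) x :=
        ((KJ_cx_contDiff hκ.smooth).contDiffAt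
          (isOpen_compl_singleton.mem_nhds hx0)).differentiableAt (by simp)
      have hd2 : DifferentiableAt ℝ (cx φ) x :=
        ((KJ_cx_contDiff hφ.smooth).contDiffAt
          (isOpen_compl_singleton.mem_nhds hx0)).differentiableAt (by simp)
      show ‖wd a (fun w => ((κ w * φ w : ℝ) : ℂ)) x‖ ≤ _
      rw [hfun, (hW1 (Fin (k + 1)) a (cx κ) (cx φ) x hd1 hd2).2.2.1]
      have e1 : ‖cx κ x‖ ≤ 1 := by
        show ‖((κ x : ℝ) : ℂ)‖ ≤ 1
        rw [Complex.norm_real, Real.norm_of_nonneg (hκ01 x hx0).1]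
        exact (hκ01 x hx0).2
      have e2 : ‖cx φ x‖ ≤ B := by
        show ‖((φ x : ℝ) : ℂ)‖ ≤ B
        rw [Complex.norm_real]
        exact hbφ x hx0
      have e3 : ‖wd a (cx φ) x‖ ≤ B := by
        have := hbdφ x hx0 a
        rw [hx, mul_one] at this
        exact this
      have e4 : ‖wd a (cx κ) x‖ ≤ Y := (hκwd x hx a).trans hY2
      calc ‖cx κ x * wd a (cx φ) x + cx φ x * wd a (cx κ) x‖
          ≤ ‖cx κ x‖ * ‖wd a (cx φ) x‖ + ‖cx φ x‖ * ‖wd a (cx κ) x‖ := by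
            refine (norm_add_le _ _).trans ?_
            rw [norm_mul, norm_mul]
        _ ≤ 1 * B + B * Y := by gcongr
        _ ≤ 2 * B * Y := by linarith)
    hjac' hsec'
    (by
      intro x hx h
      refine hdet x hx fun h0 => h ?_
      show κ x * φ x = 0
      rw [h0, zero_mul])
    S1 hS1 A τ hτ0 hτ1 hA0 hA
  have hL2' := hLe (d ^ n') Φ hD1 hE κ (2 * B * Y) ρ hκ hM1 hρpos hρ1
    (by
      intro x hx
      rw [abs_of_nonneg (hκ01 x (hne x hx)).1]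
      exact (hκ01 x (hne x hx)).2.trans hM1)
    (fun x hx a => ((hκwd x hx a).trans hY2).trans hMY)
    hjac' hsec' hdet S1 hS1 A τ hτ0 hτ1 hA0 hA
  -- the size of the error
  have hMρ : 2 * B * Y / ρ = 16 * B * K * (K / c ^ 3) ^ n' *
      Real.exp (6 * δ' * (d : ℝ) ^ n') := by
    have e1 : ρ ^ 3 = (1 / 8) * (c ^ 3) ^ n' * (Real.exp (6 * δ' * (d : ℝ) ^ n'))⁻¹ := by
      rw [hρ, mul_pow, mul_pow, ← Real.exp_nat_mul, ← Real.exp_neg]
      have e2 : ((3 : ℕ) : ℝ) * -(2 * δ' * (d : ℝ) ^ n') = -(6 * δ' * (d : ℝ) ^ n') := by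
        push_cast
        ring
      rw [e2]
      ring
    have e3 : 2 * B * Y / ρ = 2 * B * K ^ (n' + 1) / ρ ^ 3 := by
      rw [hY]
      field_simp
    rw [e3, e1, div_pow, pow_succ]
    have := Real.exp_pos (6 * δ' * (d : ℝ) ^ n)
    field_simp
    ring
  have hMρ1 : 1 ≤ 2 * B * Y / ρ := by
    rw [le_div_iff₀ hρpos]
    linarith
  have hW : (2 * B * Y / ρ) ^ m * τ ≤
      η / (2 * (1 + B * C)) / ((cu + ce) * c0) := by
    have e1 := hn2 n' hnn2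
    have e2 : (2 * B * Y / ρ) ^ m * τ = (16 * B * K) ^ m *
        (((K / c ^ 3) ^ m) ^ n' * Real.exp (-(δ / 2 * (d : ℝ) ^ n'))) := by
      rw [hMρ, hτ, mul_pow, mul_pow, ← Real.exp_nat_mul]
      have e3 : Real.exp (-(δ / 2 * (d : ℝ) ^ n')) =
          Real.exp ((m : ℝ) * (6 * δ' * (d : ℝ) ^ n')) * Real.exp (-(δ * (d : ℝ) ^ n')) := by
        rw [← Real.exp_add]
        congr 1
        have : (m : ℝ) * (6 * δ' * (d : ℝ) ^ n') = (6 * m * δ') * (d : ℝ) ^ n' := by ring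
        rw [this, hδm]
        ring
      rw [e3]
      have e4 : ((K / c ^ 3) ^ n') ^ m = ((K / c ^ 3) ^ m) ^ n' := by
        rw [← pow_mul, ← pow_mul, mul_comm]
      rw [e4]
      ring
    rw [e2]
    have e5 : 0 < (16 * B * K) ^ m := by positivity
    rw [le_div_iff₀ e5] at e1
    linarith
  obtain ⟨e, he⟩ : ∃ e : ℝ, e = η / (2 * (1 + B * C)) * Λ := ⟨_, rfl⟩
  have hepos : 0 ≤ e := by rw [he]; positivity
  have hgen : ∀ (c' : ℝ) (m' : ℕ), 0 < c' → c' ≤ cu + ce → m' ≤ m →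
      c' * (2 * B * Y / ρ) ^ m' * τ * mass q (pull Φ S1) ≤ e := by
    intro c' m' hc' hc'' hm'
    rw [hmassp, he]
    have e1 : (2 * B * Y / ρ) ^ m' ≤ (2 * B * Y / ρ) ^ m := pow_le_pow_right₀ hMρ1 hm'
    calc c' * (2 * B * Y / ρ) ^ m' * τ * (Λ * c0)
        ≤ (cu + ce) * (2 * B * Y / ρ) ^ m * τ * (Λ * c0) := by gcongr
      _ = (cu + ce) * c0 * ((2 * B * Y / ρ) ^ m * τ) * Λ := by ring
      _ ≤ (cu + ce) * c0 * (η / (2 * (1 + B * C)) / ((cu + ce) * c0)) * Λ := by gcongr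
      _ = η / (2 * (1 + B * C)) * Λ := by
          have : (cu + ce) * c0 ≠ 0 := by positivity
          field_simp
  have hE1 := hL1'.trans (hgen cu mu hcu (by linarith) (by omega))
  have hE2 := hL2'.trans (hgen ce me hce (by linarith) (by omega))
  -- the comparison
  have hdetA := KN_det A τ (by push_cast; exact hτ1) hA
  have hKM' := hKM (k + 1) p q (d ^ n') Φ S1 κ φ u B C e A hN hD1 hH hS1 hκ hφ hu hκ01
    (fun z hz => ⟨hφ0 z hz, (le_abs_self _).trans (hbφ z hz)⟩) hC hepos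
    (fun S' hS' z hz => hP4' p S' hN hS' z hz) hdetA hE1 hE2
  rw [hpp φ u, hpp (fun z => 1 - κ z) (fun _ => ell)] at hKM'
  rw [← hΛ]
  refine hKM'.trans ?_
  -- the bad part
  have hpt : ∀ z : Fin (k + 1) → ℂ, z ≠ 0 → 1 - κ z ≤ ∑ l ∈ Finset.Icc 1 n',
      Set.indicator (CrL F d (Real.exp (-(δ' / (l : ℝ) ^ 2 * (d : ℝ) ^ n')))) (fun _ => (1 : ℝ))
        (ev (iter F (n' - l)) z) := by
    intro z hz
    refine EKN_pt hc hL hδ'pos hκ01 ?_ hz
    intro x hx h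
    refine hκone x hx ?_
    rw [hρ]
    exact h
  have hbad := EKN_bad hP1 hP3 hL1 hL3 hN hnadd hκ hpt S hT
  have hks := hKS'' n hnn1 S hCls
  rw [← hn'] at hks
  have hfin := hbad.trans hks
  calc B * C * (Λ * pair (fun z => 1 - κ z) (Sn F d n S) (fun _ : Fin q => ell)) +
        (1 + B * C) * e
      ≤ B * C * (Λ * (η / (2 * B * C * c0) * c0)) + (1 + B * C) * e := by gcongr
    _ = η * Λ := by
        rw [he]
        have h1 : 1 + B * C ≠ 0 := by positivity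
        field_simp
        ring

end

end Pool.Agent.H43.EHD
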