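import Pool.Agent.H92.EHD.TK
import Pool.Agent.H92.EQ.TK2

/-!
# Row EMB of the board `ehd_modules`: the logarithmic mass of `S_i ∧ dd^c w_ε`
-/

set_option autoImplicit false

namespace Pool.Agent.H43.EHD

open scoped BigOperators ComplexConjugate ContDiff ComplexOrder
open MeasureTheory Pool.Agent.H92.EQ Pool.Agent.H92.EHD

noncomputable section

theorem EMB_cons {N q : ℕ} (w G : (Fin N → ℂ) → ℝ) :
    Function.update (fun _ : Fin (q + 1) => G) 0 w =
      Fin.cons (α := fun _ => (Fin N → ℂ) → ℝ) w (fun _ : Fin q => G) := by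
  funext j
  refine Fin.cases ?_ (fun j => ?_) j
  · simp
  · rw [Function.update_of_ne (Fin.succ_ne_zero j), Fin.cons_succ]

theorem EMB_const {N q : ℕ} (G : (Fin N → ℂ) → ℝ) :
    Fin.cons (α := fun _ => (Fin N → ℂ) → ℝ) G (fun _ : Fin q => G) =
      fun _ : Fin (q + 1) => G := by
  funext j
  refine Fin.cases ?_ (fun j => ?_) j
  · simp
  · rw [Fin.cons_succ]

theorem EMB_iter0 {N : ℕ} (F : Fin N → MvPolynomial (Fin N) ℂ) (z : Fin N → ℂ) :
    ev (iter F 0) z = z := by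
  funext i
  exact MvPolynomial.eval_X i

theorem EMB_hom0 (hL1 : T_L1) {N : ℕ} {u v : (Fin N → ℂ) → ℝ} (hu : Pot u) (hv : Pot v) :
    Hom0 (fun z => u z - v z) := by
  have h1 := (hL1 N 1 1 1 (-1) u v).1 ((hL1 N 1 1 1 1 u v).2.2.1 hu)
    ((hL1 N 1 1 1 1 v v).2.2.1 hv)
  have h2 : (fun z => (1 : ℝ) * u z + -1 * v z) = fun z => u z - v z := by
    funext z
    ring
  rw [h2] at h1
  refine (hL1 N 0 0 0 0 (fun z => u z - v z) v).2.1.2 ?_
  have h3 : (1 : ℝ) * 1 + -1 * 1 = 0 := by norm_num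
  rwa [h3] at h1

/-- a lower bound for a pairing -/
theorem EMB_low (hP1 : T_P1) (hP3 : T_P3) (hL1 : T_L1) {N p q : ℕ} {S : Form (Fin N) p}
    {u : Fin q → (Fin N → ℂ) → ℝ} (hN : p + q + 1 = N) (hS : ProjForm S) (hu : ∀ j, Pot (u j))
    {φ : (Fin N → ℂ) → ℝ} (hφ : ContinuousOn φ {0}ᶜ) (C : ℝ)
    (h : ∀ z, z ≠ 0 → -C ≤ φ z) : -C * mass q S ≤ pair φ S u := by
  have hLH : ∀ j : Fin q, LH ((fun _ : Fin q => (1 : ℝ)) j) (u j) := fun j =>
    (hL1 N 1 1 1 1 (u j) (u j)).2.2.1 (hu j)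
  have hP1' := (hP1 N p q S u (fun _ => 1) hN hS hLH).2
  have i1 := hP1' φ hφ
  have i2 : Integrable (fun z => C * Q S u z)
      (volume.restrict {z : Fin N → ℂ | 0 ≤ ell z ∧ ell z < 1}) :=
    hP1' (fun _ => C) continuousOn_const
  have h0 := (hP3 N p q S u hN hS hu).2.1 (fun z => φ z + C) (fun z hz => by
    have := h z hz
    show 0 ≤ φ z + C
    linarith)
  have h1 : pair (fun z => φ z + C) S u = pair φ S u + C * mass q S := by
    rw [← (hP3 N p q S u hN hS hu).2.2.1]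
    unfold pair Iint
    rw [← integral_const_mul, ← integral_add i1 (by simpa using i2)]
    congr 1
    funext z
    ring
  rw [h1] at h0
  linarith

/-- bounds for the potentials of the lower Jacobian -/
theorem EMB_we (hEKB : T_EKB) {k d : ℕ} {F : Fin (k + 1) → MvPolynomial (Fin (k + 1)) ℂ}
    (hk : 0 < k) (hd : 2 ≤ d) (hF : IsE d F) : ∃ C1 : ℝ, 0 ≤ C1 ∧ ∀ ε : ℝ, 0 < ε → ε ≤ 1 →
    Pot (we (lowP F) (k * (d - 1)) ε) ∧
    (∀ z, z ≠ 0 → we (lowP F) (k * (d - 1)) ε z ≤ ell z + C1) ∧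
    (∀ z, z ≠ 0 → ell z - we (lowP F) (k * (d - 1)) ε z ≤ Real.log (1 / ε)) ∧
    (∀ r : ℝ, 0 < r → r ≤ 1 → ∀ z, z ≠ 0 → z ∉ CrL F d r →
      ell z - we (lowP F) (k * (d - 1)) ε z ≤ Real.log (1 / r)) := by
  obtain ⟨_, _, hM, _, _, ⟨C, hC, hCb⟩, hwe, _⟩ := hEKB k d F hk hd hF
  have hM' : (1 : ℝ) ≤ ((k * (d - 1) : ℕ) : ℝ) := by exact_mod_cast hM
  have hM0 : (0 : ℝ) < ((k * (d - 1) : ℕ) : ℝ) := by linarith
  have hlC : 0 ≤ (1 / 2) * Real.log (C ^ 2 + 1) := by
    have : 0 ≤ Real.log (C ^ 2 + 1) := Real.log_nonneg (by nlinarith)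
    linarith
  have hnv : ∀ z : Fin (k + 1) → ℂ, 0 ≤ nv (lowP F) (k * (d - 1)) z := by
    intro z
    unfold nv
    exact div_nonneg (norm_nonneg _) (pow_nonneg (Real.sqrt_nonneg _) _)
  -- division by `M`
  have hdiv : ∀ x y : ℝ, 0 ≤ y → ((k * (d - 1) : ℕ) : ℝ) * x ≤ y → x ≤ y := by
    intro x y hy h
    by_contra hx
    push Not at hx
    have h1 : 0 < x := lt_of_le_of_lt hy hx
    have h2 : x ≤ ((k * (d - 1) : ℕ) : ℝ) * x := by nlinarith
    linarith
  refine ⟨(1 / 2) * Real.log (C ^ 2 + 1), hlC, fun ε hε hε1 => ?_⟩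
  obtain ⟨hp, hform⟩ := hwe ε hε
  refine ⟨hp, ?_, ?_, ?_⟩
  · intro z hz
    have h1 := hform z hz
    have h2 : (1 / 2) * Real.log (nv (lowP F) (k * (d - 1)) z ^ 2 + ε ^ 2) ≤
        (1 / 2) * Real.log (C ^ 2 + 1) := by
      have h3 : nv (lowP F) (k * (d - 1)) z ^ 2 ≤ C ^ 2 :=
        pow_le_pow_left₀ (hnv z) (hCb z hz) 2
      have h4 : ε ^ 2 ≤ 1 := pow_le_one₀ hε.le hε1
      have h5 : Real.log (nv (lowP F) (k * (d - 1)) z ^ 2 + ε ^ 2) ≤ Real.log (C ^ 2 + 1) :=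
        Real.log_le_log (by positivity) (by linarith)
      linarith
    rw [← h1] at h2
    have h6 := hdiv _ _ hlC h2
    linarith
  · intro z hz
    have h1 := hform z hz
    have hl : 0 ≤ Real.log (1 / ε) := Real.log_nonneg (by rw [le_div_iff₀ hε]; linarith)
    have h2 : -Real.log (1 / ε) ≤
        (1 / 2) * Real.log (nv (lowP F) (k * (d - 1)) z ^ 2 + ε ^ 2) := by
      have h5 : Real.log (ε ^ 2) ≤ Real.log (nv (lowP F) (k * (d - 1)) z ^ 2 + ε ^ 2) :=
        Real.log_le_log (by positivity) (by nlinarith [sq_nonneg (nv (lowP F) (k * (d - 1)) z)])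
      rw [Real.log_pow] at h5
      rw [one_div, Real.log_inv]
      push_cast at h5
      linarith
    have h6 := hdiv (ell z - we (lowP F) (k * (d - 1)) ε z) _ hl (by linarith)
    exact h6
  · intro r hr hr1 z hz hzr
    have h1 := hform z hz
    have hl : 0 ≤ Real.log (1 / r) := Real.log_nonneg (by rw [le_div_iff₀ hr]; linarith)
    have h2 : -Real.log (1 / r) ≤
        (1 / 2) * Real.log (nv (lowP F) (k * (d - 1)) z ^ 2 + ε ^ 2) := by
      have h3 : r ≤ nv (lowP F) (k * (d - 1)) z := by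
        by_contra h
        push Not at h
        exact hzr h
      have h4 : r ^ 2 ≤ nv (lowP F) (k * (d - 1)) z ^ 2 := pow_le_pow_left₀ hr.le h3 2
      have h5 : Real.log (r ^ 2) ≤ Real.log (nv (lowP F) (k * (d - 1)) z ^ 2 + ε ^ 2) :=
        Real.log_le_log (by positivity) (by nlinarith)
      rw [Real.log_pow] at h5
      rw [one_div, Real.log_inv]
      push_cast at h5
      linarith
    exact hdiv (ell z - we (lowP F) (k * (d - 1)) ε z) _ hl (by linarith)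

/-- Row EMB. -/
theorem pf_EMB (hEWH : T_EWH) (hEKI : T_EKI) (hEKB : T_EKB) (hEMA : T_EMA) (hKA : T_KA)
    (hKE : T_KE) (hKD : T_KD) (hKH : T_KH) (hKG2 : T_KG2) (hP1 : T_P1) (hP3 : T_P3)
    (hP6 : T_P6) (hP7 : T_P7) (hD6 : T_D6) (hD7 : T_D7) (hL1 : T_L1) (hL3 : T_L3) : T_EMB := by
  intro k d p q F hd hpq hF
  have hk : 0 < k := by omega
  have hd1 : 1 ≤ d := by omega
  have hN : p + (q + 1) + 1 = k + 1 := by omega
  have hN' : (p + 1) + q + 1 = k + 1 := by omega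
  have hFH : IsH d F := hF.isH
  obtain ⟨w1, _, w3, B', hB', w4, _⟩ := hEWH k d F hd hF
  obtain ⟨g1, _, B, hB, g3, _⟩ := hKA (k + 1) d F hd hFH
  obtain ⟨CA, hCA, hMA⟩ := hEMA k d p (q + 1) F hd hpq hF
  obtain ⟨C1, hC1, hwe⟩ := EMB_we hEKB hk hd hF
  have hell : Pot (ell : (Fin (k + 1) → ℂ) → ℝ) := (hL3 (k + 1)).1
  -- the common mass
  obtain ⟨m, hm⟩ : ∃ m : ℝ, m = mass q (om (k + 1) (p + 1)) := ⟨_, rfl⟩
  have hm0 : 0 < m := by rw [hm]; exact ((hD7 (k + 1) (p + 1)).2 q hN').1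
  have hmm : mass (q + 1) (om (k + 1) p) = m := by
    rw [hm, ((hD7 (k + 1) (p + 1)).2 q hN').2, ((hD7 (k + 1) p).2 (q + 1) hN).2]
    rw [show p + (q + 1) = p + 1 + q by omega]
  refine ⟨CA + 2 * (q + 1) * B + B + 2 * B' + (B + C1) + 2 * q * B, by positivity, ?_⟩
  intro K i A r h ε S hA hh hr hr1 hε hε1 hHit hS
  have hCls := hMA K i A S hA hS
  obtain ⟨Si, hSi⟩ : ∃ Si, Si = Sn F d i S := ⟨_, rfl⟩
  have hSiP : ProjForm Si := by rw [hSi]; exact hCls.pf
  have hSim : mass (q + 1) Si = m := by rw [hSi, hCls.ms, hmm]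
  obtain ⟨G, hG⟩ : ∃ G : (Fin (k + 1) → ℂ) → ℝ, G = Gn F d i := ⟨_, rfl⟩
  have hGP : Pot G := by rw [hG]; exact g1 i
  have hGb : ∀ z, z ≠ 0 → |G z - ell z| ≤ B := by rw [hG]; exact g3 i
  -- the general facts
  have hgen : ∀ w : (Fin (k + 1) → ℂ) → ℝ, Pot w →
      ProjForm (fun z => wedge (Si z) (hessR w z)) ∧
      InK (ev (iter F i) ⁻¹' K) (fun z => wedge (Si z) (hessR w z)) ∧
      mass q (fun z => wedge (Si z) (hessR w z)) = m := by
    intro w hw
    refine ⟨hD6 (k + 1) p Si w hSiP hw, ?_, ?_⟩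
    · exact (hKG2 (k + 1) d p i F _ Si (hessR w) hd1 hFH (by rw [hSi]; exact hCls.ink)).1
    · unfold mass
      rw [hP6 (k + 1) p q Si w _ _, (hP3 (k + 1) p (q + 1) Si _ hN hSiP (by
        intro j
        refine Fin.cases ?_ (fun j => ?_) j
        · simpa using hw
        · simpa using hell)).2.2.1]
      exact hSim
  have hlm : LM (q + 1) Si (A / (d : ℝ) ^ i + CA) := by rw [hSi]; exact hCls.lm
  constructor
  · obtain ⟨we1, we2, we3, we4⟩ := hwe ε hε hε1
    obtain ⟨w, hw⟩ : ∃ w, w = we (lowP F) (k * (d - 1)) ε := ⟨_, rfl⟩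
    rw [← hw] at we1 we2 we3 we4 ⊢
    obtain ⟨r1, r2, r3⟩ := hgen w we1
    rw [← hSi]
    refine ⟨r1, r2, by rw [r3, hm], ?_⟩
    intro e he he1
    obtain ⟨e', he', he'1, hwe'⟩ := w4 e he he1 i
    rw [← hm]
    -- (1)
    have s1 := (abs_le.1 (hKE (k + 1) (p + 1) q _ (wH e) ell G ell B hN' r1 (w1 e he) hell
      hGP hell hGb)).2
    rw [r3, hP6 (k + 1) p q Si w (fun _ : Fin q => G) _] at s1
    -- (3)
    have s3 := hKD (k + 1) p (q + 1) Si (fun _ => G) 0 (wH e) ell G w hN hSiP (fun _ => hGP)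
      (w1 e he) hell hGP we1
    rw [EMB_cons, EMB_cons, EMB_cons, EMB_cons, EMB_const] at s3
    -- (4)
    have s4 := (abs_le.1 (hKE (k + 1) p (q + 1) Si (wH e) ell G ell B hN hSiP (w1 e he) hell
      hGP hell hGb)).1
    have s4' := hlm e he he1
    rw [hmm] at s4'
    rw [hSim] at s4
    -- (5)
    have hcG : ContinuousOn (fun z => G z - w z) {0}ᶜ :=
      hGP.smooth.continuousOn.sub we1.smooth.continuousOn
    have s5 := EMB_low hP1 hP3 hL1 hN hSiP (u := Fin.cons (α := fun _ => (Fin (k + 1) → ℂ) → ℝ)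
      ell (fun _ : Fin q => G)) (by
        intro j
        refine Fin.cases ?_ (fun j => ?_) j
        · simpa using hell
        · simpa using hGP) hcG (B + C1) (by
        intro z hz
        have h1 := abs_le.1 (hGb z hz)
        have h2 := we2 z hz
        show -(B + C1) ≤ G z - w z
        linarith [h1.1])
    rw [hSim] at s5
    -- (6)
    obtain ⟨W', hW'⟩ : ∃ W' : (Fin (k + 1) → ℂ) → ℝ,
      W' = fun z => (1 / (d : ℝ) ^ i) * wH e' (ev (iter F i) z) := ⟨_, rfl⟩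
    have hW'P : Pot W' := by rw [hW']; exact w3 e' i he'
    have s6 := (abs_le.1 (hP7 (k + 1) p (q + 1) Si (fun _ => G) 0 (wH e) W' G w B' hN hSiP
      (fun _ => hGP) (w1 e he) hW'P hGP we1 (fun z hz => by
        have := hwe' z hz
        rw [hW']
        exact this))).2
    rw [hSim, EMB_cons, EMB_cons] at s6
    have hφ0 : Hom0 (fun z => G z - w z) := EMB_hom0 hL1 hGP we1
    obtain ⟨k1, k2, k3⟩ := hKH (k + 1) d p q i 0 F S (wH e') (fun z => G z - w z)
      (fun _ => G) hd hN hFH hS.pf (w1 e' he') (fun _ => hGP) hφ0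
    rw [Nat.zero_add, ← hSi, ← hW'] at k3
    have hink : InK K (fun z => wedge (Sn F d 0 S z) (hessR (wH e') z)) := by
      have h1 := (hKG2 (k + 1) d p 0 F K S (fun _ => 0) hd1 hFH hS.ink).2.1
      have h2 : ev (iter F 0) ⁻¹' K = K := by
        ext z
        show ev (iter F 0) z ∈ K ↔ z ∈ K
        rw [EMB_iter0]
      rw [h2] at h1
      exact (hKG2 (k + 1) d p 0 F K _ (hessR (wH e')) hd1 hFH h1).1
    have hlr : 0 ≤ Real.log (1 / r) := Real.log_nonneg (by rw [le_div_iff₀ hr]; linarith)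
    have hle : 0 ≤ Real.log (1 / ε) := Real.log_nonneg (by rw [le_div_iff₀ hε]; linarith)
    have s7 := hEKI k d (p + 1) q 0 i F K (fun z => wedge (Sn F d 0 S z) (hessR (wH e') z))
      (fun z => G z - w z) h r (Real.log (1 / ε)) (B + Real.log (1 / r)) hd (by omega) hF k1 hink
      (by rw [k2, hS.ms, hmm, hm]) hφ0 hh hle (by linarith) hHit
      (by
        intro z hz
        have h1 := abs_le.1 (hGb z hz)
        have h2 := we3 z hz
        show G z - w z ≤ _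
        linarith [h1.2])
      (by
        intro z hz hzr
        have h1 := abs_le.1 (hGb z hz)
        have h2 := we4 r hr hr1 z hz hzr
        show G z - w z ≤ _
        linarith [h1.2])
    rw [← hm] at s7
    simp only [EMB_iter0, Nat.add_zero] at s7
    rw [← hG, ← k3] at s7
    have s8 : (A / (d : ℝ) ^ i + (CA + 2 * (q + 1) * B + B + 2 * B' + (B + C1) + 2 * q * B) +
        Real.log (1 / r) + h * Real.log (1 / ε)) * m =
        (A / (d : ℝ) ^ i + CA) * m + 2 * ((q + 1 : ℕ) : ℝ) * B * m +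
        (Real.log (1 / ε) * h + (B + Real.log (1 / r))) * m + 2 * B' * m + (B + C1) * m +
        2 * q * B * m := by
      push_cast
      ring
    rw [s8]
    linarith
  · obtain ⟨r1, r2, r3⟩ := hgen ell hell
    rw [← hSi]
    refine ⟨r1, r2, by rw [r3, hm], ?_⟩
    intro e he he1
    have s1 := hlm e he he1
    rw [hP6 (k + 1) p q Si ell (fun _ : Fin q => ell) _, EMB_const, ← hm]
    rw [hmm] at s1
    refine s1.trans ?_
    refine mul_le_mul_of_nonneg_right ?_ hm0.le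
    have : 0 ≤ 2 * ((q : ℝ) + 1) * B + B + 2 * B' + (B + C1) + 2 * q * B := by positivity
    linarith

end

end Pool.Agent.H43.EHD
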