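import Pool.Agent.H92.EHD.TP
import Pool.Agent.H4.EQ.PRNc

/-!
# Row EPE of the board `ehd_modules`: renewal
-/

set_option autoImplicit false

open scoped BigOperators ComplexConjugate ContDiff ComplexOrder
open MeasureTheory Filter Pool.Agent.H92.EQ Pool.Agent.H4.EQ Pool.Agent.H92.EHD

namespace Pool.Agent.H43.EHD

noncomputable section

/-- renewal -/
theorem pf_EPE (hPSA : T_PSA) (hPMK : T_PMK) (hPDE : T_PDE) (hPVI : T_PVI) (hD12 : T_D12)
    (hKG2 : T_KG2) (hP1 : T_P1) (hL1 : T_L1) : T_EPE := by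
  intro k d M F P CF t s A h e C δ c r0 ε0 hd hF _ hPh _ hCF hFV hInv hδ0 hδ1 hc hr0 hr0' hε0
    hPRC s0 c2 hs0 hc2
  have hd1 : 1 ≤ d := by omega
  have hC := hInv.one
  have hC0 : 0 < C := by linarith
  have hlC : 0 ≤ Real.log C := Real.log_nonneg hC
  obtain ⟨θ, hθ1, hθ2, hθ⟩ := prn_theta t d δ CF hd hδ0 hδ1 hCF
  have hθ0 : 0 < θ := by linarith
  obtain ⟨K, hKd⟩ : ∃ K : ℝ, K = 1 / ε0 + |Real.log r0| + A * Real.log C +
    |A * Real.log s0| + |Real.log c| + 8 * CF * (3 / 2) ^ (t + 2) / δ + 1 := ⟨_, rfl⟩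
  obtain ⟨n0, hn0⟩ := eventually_atTop.1 (prn_growth d hd c2 K)
  refine ⟨θ, (θ ^ t + 1) * (2 / δ), n0, hθ1, by positivity, ?_⟩
  intro n hn i hi σ hσ hK
  have hgr := hn0 n hn
  obtain ⟨G, hG⟩ : ∃ G : ℝ, G = ((n : ℝ) + 1) * (3 / 2) ^ n := ⟨_, rfl⟩
  rw [← hG] at hgr
  have hnn : (0 : ℝ) ≤ n := Nat.cast_nonneg n
  have hGn : (n : ℝ) + 1 ≤ G := by
    have h2 : (1 : ℝ) ≤ (3 / 2) ^ n := one_le_pow₀ (by norm_num)
    rw [hG]
    nlinarith
  have hG1 : 1 ≤ G := by linarith
  obtain ⟨l, hl⟩ : ∃ l : ℝ, l = (d : ℝ) ^ n / (n : ℝ) ^ 4 - Real.log c2 := ⟨_, rfl⟩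
  rw [← hl] at hgr
  obtain ⟨r, hr⟩ : ∃ r : ℝ, r = c2 * Real.exp (-((d : ℝ) ^ n / (n : ℝ) ^ 4)) := ⟨_, rfl⟩
  have hrl : r = Real.exp (-l) := by
    rw [hr, hl]
    have h1 : -((d : ℝ) ^ n / (n : ℝ) ^ 4 - Real.log c2) =
        Real.log c2 + -((d : ℝ) ^ n / (n : ℝ) ^ 4) := by ring
    rw [h1, Real.exp_add, Real.exp_log hc2]
  have hrpos : 0 < r := by rw [hrl]; exact Real.exp_pos _
  have hlog : Real.log (1 / r) = l := by
    rw [one_div, Real.log_inv, hrl, Real.log_exp, neg_neg]
  -- the parts of the growth condition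
  have b1 : 0 ≤ 1 / ε0 := by positivity
  have b2 : 0 ≤ |Real.log r0| := abs_nonneg _
  have b3 : 0 ≤ A * Real.log C := mul_nonneg (Nat.cast_nonneg _) hlC
  have b4 : 0 ≤ |A * Real.log s0| := abs_nonneg _
  have b5 : 0 ≤ |Real.log c| := abs_nonneg _
  have b6 : 0 ≤ 8 * CF * (3 / 2) ^ (t + 2) / δ := by positivity
  have hgr' : 1 / ε0 * G + |Real.log r0| * G + A * Real.log C * G + |A * Real.log s0| * G +
      |Real.log c| * G + 8 * CF * (3 / 2) ^ (t + 2) / δ * G + G ≤ l := by
    refine le_trans (le_of_eq ?_) hgr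
    rw [hKd]
    ring
  have c1 : 0 ≤ 1 / ε0 * G := mul_nonneg b1 (by linarith)
  have c2' : |Real.log r0| ≤ |Real.log r0| * G := le_mul_of_one_le_right b2 hG1
  have c3 : A * Real.log C * n ≤ A * Real.log C * G :=
    mul_le_mul_of_nonneg_left (by linarith) b3
  have c4 : |A * Real.log s0| ≤ |A * Real.log s0| * G := le_mul_of_one_le_right b4 hG1
  have c5 : |Real.log c| ≤ |Real.log c| * G := le_mul_of_one_le_right b5 hG1
  have c6 : 0 ≤ 8 * CF * (3 / 2) ^ (t + 2) / δ * G := mul_nonneg b6 (by linarith)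
  have c7 : 0 ≤ A * Real.log C * n := mul_nonneg b3 hnn
  have hl0 : 0 < l := by linarith
  have g1 : r ≤ r0 := by
    rw [hrl, ← Real.exp_log hr0]
    apply Real.exp_le_exp.2
    linarith [neg_abs_le (Real.log r0)]
  have g2 : (n : ℝ) ≤ ε0 * l := by
    have h1 : 1 / ε0 * (n : ℝ) ≤ l := by
      have h2 : 1 / ε0 * (n : ℝ) ≤ 1 / ε0 * G := mul_le_mul_of_nonneg_left (by linarith) b1
      linarith
    calc (n : ℝ) = ε0 * (1 / ε0 * n) := by field_simp
      _ ≤ ε0 * l := mul_le_mul_of_nonneg_left h1 hε0.le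
  have g3 : r / c ≤ (s0 / C ^ n) ^ A := by
    rw [div_le_iff₀ hc]
    have h1 : (s0 / C ^ n) ^ A * c =
        Real.exp (A * (Real.log s0 - n * Real.log C) + Real.log c) := by
      rw [Real.exp_add, Real.exp_log hc, ← Real.log_pow, ← Real.log_div hs0.ne' (by positivity),
        ← Real.log_pow, Real.exp_log (by positivity)]
    rw [h1, hrl]
    apply Real.exp_le_exp.2
    have h2 := neg_abs_le (A * Real.log s0)
    have h3 := neg_abs_le (Real.log c)
    have h4 : (A : ℝ) * (Real.log s0 - n * Real.log C) =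
        A * Real.log s0 - A * Real.log C * n := by ring
    rw [h4]
    linarith
  have g4 : CF * (((n : ℝ) + 1) * (3 / 2) ^ (t + n + 2)) * (1 / l) ≤ δ / 8 := by
    rw [mul_one_div, div_le_iff₀ hl0]
    have h1 : CF * (((n : ℝ) + 1) * (3 / 2) ^ (t + n + 2)) = CF * (3 / 2) ^ (t + 2) * G := by
      rw [hG, show t + n + 2 = (t + 2) + n by ring, pow_add]
      ring
    have h2 : 8 * CF * (3 / 2) ^ (t + 2) / δ * G ≤ l := by linarith
    have h3 : CF * (3 / 2) ^ (t + 2) * G = δ / 8 * (8 * CF * (3 / 2) ^ (t + 2) / δ * G) := by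
      field_simp
    rw [h1, h3]
    exact mul_le_mul_of_nonneg_left h2 (by positivity)
  -- the weights
  obtain ⟨hv, hv01, -, -⟩ := hPVI (k + 1) M P r hPh hrpos
  rw [← hr]
  obtain ⟨v, hvd⟩ : ∃ v, v = vis P M r := ⟨_, rfl⟩
  rw [← hvd] at hv hv01
  rw [← hvd]
  have hIt : ∀ a, IsH (d ^ a) (iter F a) := fun a => (hD12 (k + 1) d F hd1 hF 0 a).1
  have hV : ∀ a, Hom0 (fun x => v (ev (iter F a) x)) := fun a => hom0_comp hL1 (hIt a) hv
  have hadd : ∀ (a b : ℕ) (x : Fin (k + 1) → ℂ),
      ev (iter F (a + b)) x = ev (iter F a) (ev (iter F b) x) := fun a b x =>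
    (hD12 (k + 1) d F hd1 hF a b).2.1 x
  have hi0 : ∀ x : Fin (k + 1) → ℂ, ev (iter F 0) x = x := by
    intro x
    funext i
    exact MvPolynomial.eval_X i
  have hfv : ∀ j, Hom0 (fv F v t j) := by
    intro j
    apply hom0_mul _ hv
    exact hom0_prod (Finset.Ico t j) (fun i x => 1 - v (ev (iter F (j - i)) x)) fun i =>
      hom0_sub (hom0_const 1) (hV _)
  have hfv0 : ∀ j x, 0 ≤ fv F v t j x := by
    intro j x
    exact mul_nonneg (Finset.prod_nonneg fun i _ => by
      linarith [(hv01 (ev (iter F (j - i)) x)).2]) (hv01 x).1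
  have hRw : ∀ L, Hom0 (Rw F v θ L) := by
    intro L
    exact hom0_sum _ (fun i x => θ ^ i * (v (ev (iter F (L - i)) x) *
      ∏ m ∈ Finset.Ico (i + 1) (L + 1), (1 - v (ev (iter F (L - m)) x)))) fun i =>
      hom0_mul (hom0_const _) (hom0_mul (hV _) (hom0_prod _
        (fun m x => 1 - v (ev (iter F (L - m)) x)) fun m => hom0_sub (hom0_const 1) (hV _)))
  -- the numerical condition
  have hnum : ∀ L, L ≤ n → ∀ σ : Form (Fin (k + 1)) k, ProjForm σ →
      InK {z | s0 ≤ C ^ (n - L) * phi h e z} σ →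
      ∑ j ∈ Finset.Ico t (L + 1), θ ^ (j + 1) * EE F d j σ (fv F v t j) ≤
        (1 - δ / 2) * mass 0 σ := by
    intro L hL σ hσ hK
    have hm := mass_nn hPMK hd hF hσ
    by_cases htL : t ≤ L
    · have hσL : ProjForm (Sn F d L σ) := (hD12 (k + 1) d F hd1 hF 0 L).2.2.2.2 k σ hσ
      rw [Finset.sum_Ico_eq_sum_range]
      apply hθ (1 / l) (mass 0 σ) n (L + 1 - t) (fun l => EE F d (t + l) σ (fv F v t (t + l)))
        hm (by positivity) (by omega)
      · intro l _
        exact ee_nonneg hPMK hd hF hσ _ (hfv _) fun z _ => hfv0 _ z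
      · have h1 := hPRC r L σ hrpos g1 htL (by
          rw [hlog]
          have h2 : (L : ℝ) ≤ n := by exact_mod_cast hL
          linarith) hσ (by
          intro z hz hzK I J
          apply hK z hz
          intro hmem
          apply hzK
          change s0 ≤ C ^ (n - L) * phi h e z at hmem
          change r / c ≤ phi h e z ^ A
          have hCn : 0 < C ^ n := by positivity
          have hphi : s0 / C ^ n ≤ phi h e z := by
            rw [div_le_iff₀ hCn]
            have h2 : 0 < phi h e z := by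
              by_contra h3
              push Not at h3
              have h4 := mul_nonpos_of_nonneg_of_nonpos
                (show 0 ≤ C ^ (n - L) by positivity) h3
              linarith
            calc s0 ≤ C ^ (n - L) * phi h e z := hmem
              _ ≤ C ^ n * phi h e z :=
                  mul_le_mul_of_nonneg_right (pow_le_pow_right₀ hC (by omega)) h2.le
              _ = _ := mul_comm _ _
          exact g3.trans (pow_le_pow_left₀ (by positivity) hphi A))
        rw [← hvd] at h1
        have h2 : ∑ j ∈ Finset.Ico t (L + 1), EE F d j σ (fv F v t j) =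
            mass 0 σ - EE F d L σ (noV F v L t (L + 1)) := by
          have e1 : ∀ j ∈ Finset.Ico t (L + 1), EE F d j σ (fv F v t j) =
              EE F d L σ (fun x => fv F v t j (ev (iter F (L - j)) x)) := by
            intro j hj
            have hjL : j ≤ L := by
              have := (Finset.mem_Ico.1 hj).2
              omega
            have h3 := (hPMK k d j (L - j) F σ hd hF hσ).2.1 (fv F v t j) (hfv j)
            rw [show j + (L - j) = L by omega] at h3
            exact h3.symm
          rw [Finset.sum_congr rfl e1, ← ee_sum hP1 hσL _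
            (fun j x => fv F v t j (ev (iter F (L - j)) x)) fun j =>
            hom0_comp hL1 (hIt _) (hfv j)]
          have e2 : (fun x => ∑ j ∈ Finset.Ico t (L + 1), fv F v t j (ev (iter F (L - j)) x)) =
              fun x => (fun _ => 1) x + (-1) * noV F v L t (L + 1) x := by
            funext x
            have h3 := (hPSA (fun i => v (ev (iter F (L - i)) x)) 1 t (L + 1) (by omega)).1
            have h4 : ∀ j ∈ Finset.Ico t (L + 1), fv F v t j (ev (iter F (L - j)) x) =
                (∏ i ∈ Finset.Ico t j, (1 - v (ev (iter F (L - i)) x))) *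
                  v (ev (iter F (L - j)) x) := by
              intro j hj
              have hjL : j ≤ L := by
                have := (Finset.mem_Ico.1 hj).2
                omega
              unfold fv noV
              congr 1
              apply Finset.prod_congr rfl
              intro i hi
              have hij := (Finset.mem_Ico.1 hi).2
              rw [← hadd, show j - i + (L - j) = L - i by omega]
            rw [Finset.sum_congr rfl h4, ← h3]
            unfold noV
            ring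
          have hnoV : Hom0 (noV F v L t (L + 1)) :=
            hom0_prod (Finset.Ico t (L + 1)) (fun i x => 1 - v (ev (iter F (L - i)) x)) fun i =>
              hom0_sub (hom0_const 1) (hV _)
          rw [e2, ee_add hP1 hσL (hom0_const 1) (hom0_mul (hom0_const (-1)) hnoV), ee_mul,
            (hPMK k d L 0 F σ hd hF hσ).2.2.2.2.2]
          ring
        rw [← Finset.sum_Ico_eq_sum_range (fun j => EE F d j σ (fv F v t j)), h2]
        linarith
      · intro l' hl' _
        obtain ⟨e1, e2⟩ := fv_restart hPMK hd hF hσ v t l'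
        have hσt : ProjForm (Sn F d t σ) := (hD12 (k + 1) d F hd1 hF 0 t).2.2.2.2 k σ hσ
        have h1 := hFV r l' (Sn F d t σ) hrpos (g1.trans hr0') hl' hσt
        rw [hlog, e2, ← hvd, ← e1] at h1
        exact h1
      · exact g4
    · rw [Finset.Ico_eq_empty (by omega), Finset.sum_empty]
      exact mul_nonneg (by linarith) hm
  -- conclusion
  have hcore := renewal_core hPSA hPMK hPDE hD12 hKG2 hP1 hL1 hd hF hv hv01 hC hInv.grow hθ1 hδ0
    hnum i hi σ hσ (by
      intro z hz hzK I J
      apply hK z hz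
      intro hmem
      apply hzK
      change s0 ≤ phi h e z at hmem
      change s0 ≤ C ^ (n - i) * phi h e z
      have h1 : 1 ≤ C ^ (n - i) := one_le_pow₀ hC
      calc s0 ≤ phi h e z := hmem
        _ ≤ C ^ (n - i) * phi h e z := le_mul_of_one_le_left (hs0.le.trans hmem) h1)
  have hlast : ∀ z, θ ^ i * v z ≤ Rw F v θ i z := by
    intro z
    unfold Rw
    have h1 := Finset.single_le_sum (s := Finset.Ico 0 (i + 1)) (f := fun a => θ ^ a *
      (v (ev (iter F (i - a)) z) *
        ∏ m ∈ Finset.Ico (a + 1) (i + 1), (1 - v (ev (iter F (i - m)) z)))) (fun a _ =>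
        mul_nonneg (pow_nonneg hθ0.le _) (mul_nonneg (hv01 _).1 (Finset.prod_nonneg fun m _ => by
          linarith [(hv01 (ev (iter F (i - m)) z)).2]))) (Finset.mem_Ico.2
        ⟨Nat.zero_le i, Nat.lt_succ_self i⟩)
    simp only [Nat.sub_self, Finset.Ico_self, Finset.prod_empty, mul_one, hi0] at h1
    exact h1
  have hmono := (hPMK k d i 0 F σ hd hF hσ).2.2.2.2.1 (fun z => θ ^ i * v z) (Rw F v θ i)
    (hom0_mul (hom0_const _) hv) (hRw i) fun z _ => hlast z
  rw [ee_mul] at hmono
  have hfin := hmono.trans hcore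
  have hθi : 0 < θ ^ i := by positivity
  rw [div_mul_eq_mul_div, le_div_iff₀ hθi]
  linarith

end

end Pool.Agent.H43.EHD
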